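import Pool.Agent.Y375.NR.Quad

open Pool.Agent.Results.MP_768068_al.NonNilpotentRadical

namespace Pool.Agent.Results.MP_768068_al.IdealChain

universe u

/-- Over every nonzero commutative ring `Φ`, with no restriction on the characteristic, there is
one associative unital algebra `A` and one ideal `L` such that both for the associative algebra
`A` and for the quadratic Jordan algebra `A⁺` (`U_x y = x y x`): ascending chains of (outer)
ideals stop; `L` is the locally nilpotent radical, it is not nilpotent; its powers decrease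
strictly and meet in zero; the (outer) ideals are exactly `0`, `A` and the powers of `L`; the
algebra is prime.  If `2` is invertible there is a linear Jordan algebra with the same
properties. -/
theorem result (Φ : Type u) [CommRing Φ] [Nontrivial Φ] :
    (∃ (A : Type u) (_ : Ring A) (_ : Algebra Φ A) (L : Submodule Φ A),
      (WeaklyNoetherian Φ A ∧ Y375.NR.ChainRadical Φ L ∧ ¬ NilpotentSet (L : Set A)) ∧
      (Y375.NR.QNoetherian Φ A ∧ Y375.NR.QChainRadical Φ L ∧
        ¬ Y375.NR.QNilpotent (L : Set A))) ∧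
    (IsUnit (2 : Φ) →
      ∃ (A : Type u) (_ : NonUnitalNonAssocRing A) (_ : Module Φ A)
        (_ : IsScalarTower Φ A A) (_ : SMulCommClass Φ A A) (L : Submodule Φ A),
        (∀ x y : A, x * y = y * x) ∧ (∀ x y : A, ((x * x) * y) * x = (x * x) * (y * x)) ∧
        WeaklyNoetherian Φ A ∧ Y375.NR.ChainRadical Φ L ∧ ¬ NilpotentSet (L : Set A)) := by
  obtain ⟨m, hm⟩ := Ideal.exists_maximal Φ
  let _ : Field (Φ ⧸ m) := Ideal.Quotient.field m
  have hs : Function.Surjective (algebraMap Φ (Φ ⧸ m)) := Ideal.Quotient.mk_surjective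
  refine ⟨⟨Alg (Φ ⧸ m), inferInstance, inferInstance, Lvl Φ (Φ ⧸ m) 1,
    ⟨(counterexample_assoc hs).1, Y375.NR.chain_assoc hs, ?_⟩,
    Y375.NR.qnoetherian hs, Y375.NR.qchain hs, Y375.NR.qnot_nilpotent⟩, fun h2 => ?_⟩
  · exact not_nilpotent_L (Φ := Φ) (LinearEquiv.refl Φ (Alg (Φ ⧸ m))) 1 0 (by simp)
      (fun x y => by simp)
  · have h3 : (2 : Φ ⧸ m) ≠ 0 := by
      have h4 := (h2.map (algebraMap Φ (Φ ⧸ m))).ne_zero
      rwa [map_ofNat] at h4
    refine ⟨JAlg (Φ ⧸ m), inferInstance, inferInstance, inferInstance, inferInstance,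
      (Lvl Φ (Φ ⧸ m) 1).comap (toAlg Φ (Φ ⧸ m)).toLinearMap,
      J_comm, J_jordan, (counterexample_jordan hs h3).1, Y375.NR.chain_jordan hs h3, ?_⟩
    refine not_nilpotent_L (Φ := Φ) (toAlg Φ (Φ ⧸ m)) (2 : Φ ⧸ m)⁻¹ (2 : Φ ⧸ m)⁻¹ ?_ ?_
    · rw [← two_mul, mul_inv_cancel₀ h3]
    · intro x y
      rw [← smul_add]
      rfl

end Pool.Agent.Results.MP_768068_al.IdealChain
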